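import Pool.Agent.Helper67.VF.RF
import Pool.Agent.Helper58.VF.APP

/-!
# Project RF, packet APR (shadow)
-/

set_option autoImplicit false

namespace Pool.Agent.Helper41.VF

open Pool.Agent.Helper27.VF Pool.Agent.Helper67.RF

universe u

theorem apr (hB : RkbStmt.{u}) (hI : InrStmt.{u}) (hK : KndStmt.{u}) : AprStmt.{u} := by
  intro Γ _ hG hA S hS _ h1 hinf
  obtain ⟨A, hAf, htf, hrf⟩ := hA
  have := hAf
  have := hG
  have hAG : Group.FG A := Subgroup.fg_of_index_ne_zero A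
  obtain ⟨r, hr⟩ := hB A hAG hrf
  have htf' : ∀ (a : A) (n : ℕ), 0 < n → a ^ n = 1 → a = 1 := by
    intro a n hn han
    refine Subtype.ext (htf (a : Γ) a.2 n hn ?_)
    have := congrArg (Subtype.val) han
    simpa using this
  obtain ⟨G₀, p, hst⟩ := Pool.Agent.Helper58.VF.setting hG A hAf S hS h1 hinf
  obtain ⟨Z, hZ1, hZ2⟩ := hI r A Γ (Pool.Agent.Helper58.VF.cay S) G₀ 1 p htf' hr hst
  refine hK Γ (Pool.Agent.Helper58.VF.cay S) ((fun a : A => (a : Γ)) '' Z)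
    (hZ1.image Subtype.val_injective.injOn) ?_
  rintro _ ⟨a, ha, rfl⟩ _ ⟨b, hb, rfl⟩ c hc ⟨hx, hy⟩
  have e1 : ∀ a : A, a • (1 : Γ) = (a : Γ) := fun a => by
    rw [Subgroup.smul_def, smul_eq_mul, mul_one]
  refine hZ2 a ha b hb c hc ⟨fact1 hst hc ?_, fact1' hst hc ?_⟩
  · rw [e1]; exact hx
  · rw [e1]; exact hy

end Pool.Agent.Helper41.VF
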